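import Mathlib
import Pool.Agent.N57.Integrals

/-!
# A non-abelian variety of groups in which every group has an integral

For an odd prime `p` every group `G` of exponent dividing `p` and nilpotency class at most `2` has
an automorphism `α` with `α ^ 2 = 1` inverting `G` modulo `G'`; then `G` is the derived subgroup of
`G ⋊ C₂`.
-/

set_option autoImplicit false

namespace Pool.Agent.Results.MP_fbf3cb_al.ClassTwoOddPrime

open scoped commutatorElement
open Pool.Agent.N57.Integrals

universe u

/-- `G` satisfies all laws in the set `W` of words (`G` belongs to the variety defined by `W`). -/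
def Satisfies (W : Set (FreeGroup ℕ)) (G : Type u) [Group G] : Prop :=
  ∀ w ∈ W, ∀ f : FreeGroup ℕ →* G, f w = 1

/-- The laws `x ^ p = 1` and `[[x, y], z] = 1`. -/
def laws (p : ℕ) : Set (FreeGroup ℕ) :=
  {FreeGroup.of 0 ^ p, ⁅⁅FreeGroup.of 0, FreeGroup.of 1⁆, FreeGroup.of 2⁆}

theorem laws_pow {G : Type u} [Group G] {p : ℕ} (h : Satisfies (laws p) G) (x : G) :
    x ^ p = 1 := by
  have := h _ (Or.inl rfl) (FreeGroup.lift fun _ => x)
  simpa using this

theorem laws_comm {G : Type u} [Group G] {p : ℕ} (h : Satisfies (laws p) G) (x y z : G) :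
    ⁅⁅x, y⁆, z⁆ = 1 := by
  have := h _ (Or.inr rfl) (FreeGroup.lift fun i => if i = 0 then x else if i = 1 then y else z)
  simpa [commutatorElement_def] using this

theorem heis {p : ℕ} (hp : p.Prime) (h2 : p ≠ 2) : Satisfies (laws p) (Heis.{u} p) := by
  rintro w (rfl | rfl) f
  · rw [map_pow, Heis.pow_p hp h2]
  · rw [map_commutatorElement, map_commutatorElement, Heis.two]

/-- **A non-abelian variety of groups in which every group has an integral.** Let `p` be an odd
prime. The variety of groups defined by the laws `x ^ p = 1` and `[[x, y], z] = 1` contains a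
non-abelian group, and every group `G` in it has an integral: there is a group `H` whose derived
subgroup is isomorphic to `G`, and which has index two in `H`. -/
theorem result (p : ℕ) (hp : p.Prime) (h2 : p ≠ 2) :
    (∃ (G : Type u) (_ : Group G), Satisfies (laws p) G ∧ ∃ x y : G, x * y ≠ y * x) ∧
    ∀ (G : Type u) [Group G], Satisfies (laws p) G →
      ∃ (H : Type u) (_ : Group H), (commutator H).index = 2 ∧ Nonempty (commutator H ≃* G) :=
  ⟨⟨Heis p, inferInstance, heis hp h2, Heis.not_comm hp⟩,
    fun _ _ h => integral (laws_comm h) hp h2 (laws_pow h)⟩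

end Pool.Agent.Results.MP_fbf3cb_al.ClassTwoOddPrime
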